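import Pool.Agent.Helper98.DISC.GoalsD

/-! # Project DISC, packet BI -/

open MeasureTheory Set Filter Topology
open scoped ENNReal

noncomputable section

namespace Pool.Agent.Helper37.DISC

open Pool.Agent.Helper98.DISC

theorem bi : S_BI := by
  intro m
  have hint : IntegrableOn (fun w : ℂ => ‖w‖ ^ (2 * m)) (Metric.ball (0 : ℂ) 1) := by
    refine Measure.integrableOn_of_bounded (M := 1) ?_ ?_ ?_
    · exact measure_ball_lt_top.ne
    · exact (continuous_norm.pow _).aestronglyMeasurable
    · filter_upwards [ae_restrict_mem measurableSet_ball] with w hw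
      rw [mem_ball_zero_iff] at hw
      rw [norm_pow, norm_norm]
      exact pow_le_one₀ (norm_nonneg _) hw.le
  rw [← ofReal_integral_eq_lintegral_ofReal hint (Eventually.of_forall fun w => by positivity)]
  congr 1
  have e1 : ∫ w in Metric.ball (0 : ℂ) 1, ‖w‖ ^ (2 * m) =
      ∫ w : ℂ, (Iio (1 : ℝ)).indicator (fun r => r ^ (2 * m)) ‖w‖ := by
    rw [← integral_indicator measurableSet_ball]
    congr 1
    funext w
    by_cases hw : ‖w‖ < 1
    · rw [indicator_of_mem (by rwa [mem_ball_zero_iff]), indicator_of_mem (show ‖w‖ ∈ Iio (1 : ℝ) from hw)]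
    · rw [indicator_of_notMem (by rwa [mem_ball_zero_iff]),
        indicator_of_notMem (show ‖w‖ ∉ Iio (1 : ℝ) from hw)]
  rw [e1, integral_fun_norm_addHaar (volume : Measure ℂ), Complex.finrank_real_complex]
  have e2 : ∫ y in Ioi (0 : ℝ), y ^ (2 - 1) • (Iio (1 : ℝ)).indicator (fun r => r ^ (2 * m)) y =
      ∫ y in (0 : ℝ)..1, y ^ (2 * m + 1) := by
    rw [intervalIntegral.integral_of_le zero_le_one, ← integral_Ioc_eq_integral_Ioo.symm,
      ← integral_indicator measurableSet_Ioi, ← integral_indicator measurableSet_Ioo]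
    congr 1
    funext y
    by_cases h0 : 0 < y
    · by_cases h1 : y < 1
      · rw [indicator_of_mem (show y ∈ Ioi (0 : ℝ) from h0), indicator_of_mem (show y ∈ Iio (1 : ℝ) from h1),
          indicator_of_mem (show y ∈ Ioo (0 : ℝ) 1 from ⟨h0, h1⟩), smul_eq_mul, pow_succ]
        norm_num
        ring
      · rw [indicator_of_mem (show y ∈ Ioi (0 : ℝ) from h0),
          indicator_of_notMem (show y ∉ Iio (1 : ℝ) from h1),
          indicator_of_notMem (show y ∉ Ioo (0 : ℝ) 1 from fun h => h1 h.2), smul_zero]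
    · rw [indicator_of_notMem (show y ∉ Ioi (0 : ℝ) from h0),
        indicator_of_notMem (show y ∉ Ioo (0 : ℝ) 1 from fun h => h0 h.1)]
  rw [e2, integral_pow]
  have e3 : (volume : Measure ℂ).real (Metric.ball (0 : ℂ) 1) = Real.pi := by
    rw [Measure.real, Complex.volume_ball]
    simp
  rw [e3]
  simp only [nsmul_eq_mul, smul_eq_mul]
  push_cast
  field_simp
  ring

end Pool.Agent.Helper37.DISC
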