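import Pool.Agent.Helper98.DISC.GoalsF

/-!
# Project DISC, packet GPY: partial fractions over every field of characteristic `0`

Adapted from Helper77/DISC/PFM and Helper49/DISC/PFY.
-/

noncomputable section

namespace Pool.Agent.Helper37.DISC

open Pool.Agent.Helper98.DISC

theorem gcongr' {K k : ℕ} {f g : ∀ (F : Type) [Field F], F → F}
    (h : ∀ (F : Type) [Field F] [CharZero F] (z : F), (∀ m ∈ Finset.Icc (-(K : ℤ)) K, z ≠ m) →
      g F z = f F z) (hf : GP K k f) : GP K k g := by
  obtain ⟨a, ha⟩ := hf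
  exact ⟨a, fun F _ _ z hz => by rw [h F z hz, ha F z hz]⟩

theorem gmono {K j k : ℕ} {f : ∀ (F : Type) [Field F], F → F} (hjk : j ≤ k) (hf : GP K j f) :
    GP K k f := by
  obtain ⟨a, ha⟩ := hf
  refine ⟨fun m l => if l < j then a m l else 0, fun F _ _ z hz => ?_⟩
  rw [ha F z hz]
  refine Finset.sum_congr rfl fun m _ => ?_
  rw [← Finset.sum_subset (Finset.range_subset_range.mpr hjk)]
  · refine Finset.sum_congr rfl fun l hl => ?_
    beta_reduce
    rw [if_pos (Finset.mem_range.mp hl)]
  · intro l _ hl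
    beta_reduce
    rw [if_neg (fun h => hl (Finset.mem_range.mpr h))]
    simp

theorem gadd {K k : ℕ} {f g : ∀ (F : Type) [Field F], F → F} (hf : GP K k f) (hg : GP K k g) :
    GP K k (fun F _ z => f F z + g F z) := by
  obtain ⟨a, ha⟩ := hf
  obtain ⟨b, hb⟩ := hg
  refine ⟨fun m l => a m l + b m l, fun F _ _ z hz => ?_⟩
  beta_reduce
  rw [ha F z hz, hb F z hz, ← Finset.sum_add_distrib]
  refine Finset.sum_congr rfl fun m _ => ?_
  rw [← Finset.sum_add_distrib]
  refine Finset.sum_congr rfl fun l _ => ?_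
  push_cast
  ring

theorem gsmul {K k : ℕ} (q : ℚ) {f : ∀ (F : Type) [Field F], F → F} (hf : GP K k f) :
    GP K k (fun F _ z => (q : F) * f F z) := by
  obtain ⟨a, ha⟩ := hf
  refine ⟨fun m l => q * a m l, fun F _ _ z hz => ?_⟩
  beta_reduce
  rw [ha F z hz, Finset.mul_sum]
  refine Finset.sum_congr rfl fun m _ => ?_
  rw [Finset.mul_sum]
  refine Finset.sum_congr rfl fun l _ => ?_
  push_cast
  ring

theorem gzero (K k : ℕ) : GP K k (fun _ _ _ => 0) :=
  ⟨fun _ _ => 0, fun F _ _ z _ => by simp⟩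

theorem gsum {K k : ℕ} {ι : Type} (s : Finset ι) (f : ι → ∀ (F : Type) [Field F], F → F)
    (h : ∀ i ∈ s, GP K k (f i)) : GP K k (fun F _ z => ∑ i ∈ s, f i F z) := by
  classical
  induction s using Finset.induction_on with
  | empty => exact gcongr' (fun F _ _ z _ => by simp) (gzero K k)
  | insert i s hi ih =>
    have h1 := gadd (h i (Finset.mem_insert_self i s))
      (ih fun j hj => h j (Finset.mem_insert_of_mem hj))
    refine gcongr' (fun F _ _ z _ => ?_) h1
    rw [Finset.sum_insert hi]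

/-- the basic functions -/
theorem gbasic {K : ℕ} {m : ℤ} (hm : |m| ≤ K) (l : ℕ) :
    GP K (l + 1) (fun F _ z => 1 / (z - m) ^ (l + 1)) := by
  classical
  refine ⟨fun m' l' => if m' = m ∧ l' = l then 1 else 0, fun F _ _ z hz => ?_⟩
  have hm' : m ∈ Finset.Icc (-(K : ℤ)) K := Finset.mem_Icc.mpr (abs_le.mp hm)
  rw [Finset.sum_eq_single m, Finset.sum_eq_single l]
  · simp
  · intro l' _ hl'
    simp [hl']
  · intro h
    exact absurd (Finset.mem_range.mpr (Nat.lt_succ_self l)) h
  · intro m' _ hm''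
    refine Finset.sum_eq_zero fun l' _ => ?_
    simp [hm'']
  · intro h
    exact absurd hm' h

/-- products of two basic functions -/
theorem gprod {K : ℕ} {m m' : ℤ} (hm : |m| ≤ K) (hm' : |m'| ≤ K) : ∀ (n a b : ℕ), a + b = n → 0 < n →
    GP K n (fun F _ z => 1 / (z - m) ^ a * (1 / (z - m') ^ b)) := by
  intro n
  induction n with
  | zero => intro a b _ h; exact absurd h (lt_irrefl 0)
  | succ n ih =>
    intro a b hab _
    by_cases he : m = m'
    · subst he
      refine gcongr' (fun F _ _ z hz => ?_) (gbasic hm n)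
      rw [div_mul_div_comm, one_mul, ← pow_add, hab]
    · rcases a with _ | a
      · rw [Nat.zero_add] at hab
        subst hab
        refine gcongr' (fun F _ _ z hz => ?_) (gbasic hm' n)
        simp
      rcases b with _ | b
      · rw [Nat.add_zero] at hab
        rw [hab]
        refine gcongr' (fun F _ _ z hz => ?_) (gbasic hm n)
        simp
      have hn : 0 < n := by omega
      have h1 := ih (a + 1) b (by omega) hn
      have h2 := ih a (b + 1) (by omega) hn
      have h3 := gsmul ((m - m' : ℚ)⁻¹) (gadd h1 (gsmul (-1) h2))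
      refine gcongr' (fun F _ _ z hz => ?_) (gmono (Nat.le_succ n) h3)
      have hz1 : z - m ≠ 0 := sub_ne_zero.2 (hz m (Finset.mem_Icc.mpr (abs_le.mp hm)))
      have hz2 : z - m' ≠ 0 := sub_ne_zero.2 (hz m' (Finset.mem_Icc.mpr (abs_le.mp hm')))
      have hmm : (m : F) - m' ≠ 0 := by
        rw [sub_ne_zero]
        exact_mod_cast he
      push_cast
      rw [pow_succ, pow_succ]
      field_simp
      ring

theorem gmul {K j k : ℕ} {f g : ∀ (F : Type) [Field F], F → F} (hf : GP K j f) (hg : GP K k g) :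
    GP K (j + k) (fun F _ z => f F z * g F z) := by
  obtain ⟨a, ha⟩ := hf
  obtain ⟨b, hb⟩ := hg
  have h1 : GP K (j + k) (fun F _ z => ∑ m ∈ Finset.Icc (-(K : ℤ)) K, ∑ l ∈ Finset.range j,
      ∑ m' ∈ Finset.Icc (-(K : ℤ)) K, ∑ l' ∈ Finset.range k,
        ((a m l * b m' l' : ℚ) : F) * (1 / (z - m) ^ (l + 1) * (1 / (z - m') ^ (l' + 1)))) := by
    refine gsum _ (fun m F _ z => ∑ l ∈ Finset.range j,
      ∑ m' ∈ Finset.Icc (-(K : ℤ)) K, ∑ l' ∈ Finset.range k,
        ((a m l * b m' l' : ℚ) : F) * (1 / (z - m) ^ (l + 1) * (1 / (z - m') ^ (l' + 1)))) fun m hm => ?_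
    refine gsum _ (fun l F _ z =>
      ∑ m' ∈ Finset.Icc (-(K : ℤ)) K, ∑ l' ∈ Finset.range k,
        ((a m l * b m' l' : ℚ) : F) * (1 / (z - m) ^ (l + 1) * (1 / (z - m') ^ (l' + 1)))) fun l hl => ?_
    refine gsum _ (fun m' F _ z => ∑ l' ∈ Finset.range k,
        ((a m l * b m' l' : ℚ) : F) * (1 / (z - m) ^ (l + 1) * (1 / (z - m') ^ (l' + 1)))) fun m' hm' => ?_
    refine gsum _ (fun l' F _ z =>
        ((a m l * b m' l' : ℚ) : F) * (1 / (z - m) ^ (l + 1) * (1 / (z - m') ^ (l' + 1)))) fun l' hl' => ?_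
    refine gsmul (a m l * b m' l') ?_
    have h2 := Finset.mem_range.mp hl
    have h3 := Finset.mem_range.mp hl'
    exact gmono (by omega : l + 1 + (l' + 1) ≤ j + k)
      (gprod (abs_le.mpr (Finset.mem_Icc.mp hm)) (abs_le.mpr (Finset.mem_Icc.mp hm'))
        (l + 1 + (l' + 1)) (l + 1) (l' + 1) rfl (by omega))
  refine gcongr' (fun F _ _ z hz => ?_) h1
  rw [ha F z hz, hb F z hz, Finset.sum_mul]
  refine Finset.sum_congr rfl fun m _ => ?_
  rw [Finset.sum_mul]
  refine Finset.sum_congr rfl fun l _ => ?_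
  rw [Finset.mul_sum]
  refine Finset.sum_congr rfl fun m' _ => ?_
  rw [Finset.mul_sum]
  refine Finset.sum_congr rfl fun l' _ => ?_
  push_cast
  ring

theorem glin {K : ℕ} (c : ℤ) (hc : |c| ≤ K) : GP K 1 (fun F _ z => (z + c)⁻¹) := by
  have h1 := gbasic (K := K) (m := -c) (by rwa [abs_neg]) 0
  refine gcongr' (fun F _ _ z hz => ?_) h1
  push_cast
  simp

/-- products, with the empty product -/
def GQ (K k : ℕ) (f : ∀ (F : Type) [Field F], F → F) : Prop :=
  (k = 0 ∧ ∀ (F : Type) [Field F] (z : F), f F z = 1) ∨ GP K k f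

theorem gq_mul {K j k : ℕ} {f g : ∀ (F : Type) [Field F], F → F} (hf : GQ K j f) (hg : GQ K k g) :
    GQ K (j + k) (fun F _ z => f F z * g F z) := by
  rcases hf with ⟨rfl, hf⟩ | hf
  · rw [zero_add]
    simp only [hf, one_mul]
    exact hg
  · rcases hg with ⟨rfl, hg⟩ | hg
    · simp only [hg, mul_one, add_zero]
      exact Or.inr hf
    · exact Or.inr (gmul hf hg)

theorem gq_prod (K : ℕ) {ι : Type} (s : Finset ι) (k : ι → ℕ)
    (f : ι → ∀ (F : Type) [Field F], F → F)
    (h : ∀ i ∈ s, GQ K (k i) (f i)) : GQ K (∑ i ∈ s, k i) (fun F _ z => ∏ i ∈ s, f i F z) := by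
  classical
  induction s using Finset.induction_on with
  | empty =>
    left
    simp
  | insert a s ha ih =>
    simp only [Finset.sum_insert ha, Finset.prod_insert ha]
    exact gq_mul (h a (Finset.mem_insert_self a s))
      (ih fun i hi => h i (Finset.mem_insert_of_mem hi))

theorem dF_rat {k : ℕ} (lam : Fin k → Fin (k + 1)) : ∃ q : ℚ,
    ∀ (F : Type) [Field F] [CharZero F], dF F lam = (q : F) := by
  refine ⟨(∏ i, ∏ j ∈ Finset.Ioi i, ((ell lam i : ℚ) - ell lam j)) /
    ∏ i, ((ell lam i).factorial : ℚ), fun F _ _ => ?_⟩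
  unfold dF
  push_cast
  rfl

theorem sF_gp {K j : ℕ} (hj : 1 ≤ j) (hjK : j ≤ K + 1) : GP K j (fun F _ z => sF F j z) := by
  unfold sF
  refine gsum (prt j) (fun lam F _ z => dF F lam ^ 2 * ∏ i, ∏ l ∈ Finset.range (lam i),
    (z + l - i)⁻¹) ?_
  intro lam hlam
  rw [prt, Finset.mem_filter] at hlam
  obtain ⟨-, -, hsum⟩ := hlam
  obtain ⟨q, hq⟩ := dF_rat lam
  have h1 : GQ K (∑ i, (lam i : ℕ))
      (fun F _ z => ∏ i, ∏ l ∈ Finset.range (lam i), (z + l - i)⁻¹) := by
    refine gq_prod K Finset.univ (fun i => (lam i : ℕ))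
      (fun i F _ z => ∏ l ∈ Finset.range (lam i), (z + l - i)⁻¹) fun i _ => ?_
    have h2 : GQ K (∑ l ∈ Finset.range (lam i), 1)
        (fun F _ z => ∏ l ∈ Finset.range (lam i), (z + l - i)⁻¹) := by
      refine gq_prod K (Finset.range (lam i)) (fun _ => 1) (fun l F _ z => (z + l - i)⁻¹)
        fun l hl => ?_
      right
      have hl' := Finset.mem_range.1 hl
      have hlam := (lam i).2
      have hi := i.2
      have hc : |(l : ℤ) - (i : ℕ)| ≤ K := by
        rw [abs_le]
        constructor <;> omega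
      have h3 := glin (K := K) ((l : ℤ) - (i : ℕ)) hc
      refine gcongr' (fun F _ _ z _ => ?_) h3
      push_cast
      ring
    rw [Finset.sum_const, Finset.card_range, smul_eq_mul, mul_one] at h2
    exact h2
  rw [hsum] at h1
  rcases h1 with ⟨h1, -⟩ | h1
  · omega
  · have h4 := gsmul (q ^ 2) h1
    refine gcongr' (fun F _ _ z _ => ?_) h4
    rw [hq F]
    push_cast
    ring

theorem sF_zero (F : Type) [Field F] (z : F) : sF F 0 z = 1 := by
  have h1 : prt 0 = {fun i => i.elim0} := by
    ext lam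
    simp only [prt, Finset.mem_filter, Finset.mem_univ, true_and, Finset.mem_singleton]
    constructor
    · intro _
      funext i
      exact i.elim0
    · intro _
      refine ⟨fun i => i.elim0, ?_⟩
      simp
  unfold sF
  rw [h1, Finset.sum_singleton]
  unfold dF
  simp

/-- `y_n` with the same recursion -/
def yG (F : Type) [Field F] (k : ℕ) (z : F) : F :=
  PowerSeries.coeff k (PowerSeries.X * PowerSeries.derivative F (SF F z) * (SF F z)⁻¹)

theorem yG_rec (F : Type) [Field F] (k : ℕ) (z : F) :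
    yG F k z = k * sF F k z - ∑ i ∈ Finset.range k, yG F i z * sF F (k - i) z := by
  have hmul : PowerSeries.X * PowerSeries.derivative F (SF F z) * (SF F z)⁻¹ * SF F z =
      PowerSeries.X * PowerSeries.derivative F (SF F z) := by
    rw [mul_assoc, PowerSeries.inv_mul_cancel, mul_one]
    have h : PowerSeries.constantCoeff (SF F z) = sF F 0 z := by
      rw [← PowerSeries.coeff_zero_eq_constantCoeff_apply]
      unfold SF
      rw [PowerSeries.coeff_mk]
    rw [h, sF_zero]
    exact one_ne_zero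
  have hco : PowerSeries.coeff k (PowerSeries.X * PowerSeries.derivative F (SF F z)) =
      k * sF F k z := by
    rcases k with _ | k
    · rw [PowerSeries.coeff_zero_X_mul]
      simp
    · rw [PowerSeries.coeff_succ_X_mul, PowerSeries.coeff_derivative]
      unfold SF
      rw [PowerSeries.coeff_mk]
      push_cast
      ring
  have h1 := congrArg (PowerSeries.coeff k) hmul
  rw [PowerSeries.coeff_mul, hco] at h1
  have h2 := Finset.Nat.sum_antidiagonal_eq_sum_range_succ
    (fun i j => PowerSeries.coeff i (PowerSeries.X * PowerSeries.derivative F (SF F z) *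
      (SF F z)⁻¹) * PowerSeries.coeff j (SF F z)) k
  rw [h2, Finset.sum_range_succ] at h1
  have h3 : ∀ j, PowerSeries.coeff j (SF F z) = sF F j z := fun j => by
    unfold SF
    rw [PowerSeries.coeff_mk]
  simp only [h3, Nat.sub_self, sF_zero, mul_one] at h1
  unfold yG
  linear_combination h1

theorem yG_zero (F : Type) [Field F] (z : F) : yG F 0 z = 0 := by
  rw [yG_rec]
  simp

theorem yF_eq (F : Type) [Field F] {n : ℕ} (hn : 1 ≤ n) (z : F) : yF F n z = yG F n z := by
  obtain ⟨m, rfl⟩ := Nat.exists_eq_add_of_le' hn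
  unfold yF yG
  rw [Nat.add_sub_cancel, mul_assoc, PowerSeries.coeff_succ_X_mul]

/-- packet GPY -/
theorem gpy : S_GPY := by
  have key : ∀ K k : ℕ, 1 ≤ k → k ≤ K + 1 → GP K k (fun F _ z => yG F k z) := by
    intro K k
    induction k using Nat.strong_induction_on with
    | _ k ih =>
      intro hk hkK
      have h1 : GP K k (fun F _ z => ((k : ℚ) : F) * sF F k z) := gsmul (k : ℚ) (sF_gp hk hkK)
      have h2 : GP K k (fun F _ z => ∑ i ∈ Finset.range k, yG F i z * sF F (k - i) z) := by
        refine gsum (Finset.range k) (fun i F _ z => yG F i z * sF F (k - i) z) fun i hi => ?_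
        have hi' := Finset.mem_range.1 hi
        rcases Nat.eq_zero_or_pos i with rfl | hi0
        · refine gcongr' (fun F _ _ z _ => ?_) (gzero K k)
          rw [yG_zero, zero_mul]
        · have h3 := gmul (ih i hi' hi0 (by omega)) (sF_gp (K := K) (j := k - i) (by omega) (by omega))
          have h4 : i + (k - i) = k := by omega
          rwa [h4] at h3
      have h6 := gadd h1 (gsmul (-1) h2)
      refine gcongr' (fun F _ _ z _ => ?_) h6
      rw [yG_rec F k z]
      push_cast
      ring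
  intro n hn
  refine gcongr' (fun F _ _ z _ => ?_) (key (n - 1) n hn (by omega))
  exact yF_eq F hn z

end Pool.Agent.Helper37.DISC
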